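import Pool.Agent.Helper38.WY.Goals2
import Pool.Agent.Helper16.PW.NALG

/-!
# Project WY (MP_fc6b1e_nt), packet Y_SGB: elementary properties of `SigT`
-/

set_option autoImplicit false

namespace Pool.Agent.Helper96.WY

open Pool.Agent.Helper38.WY Pool.Agent.Helper16.PW

section gen

variable {Ω : Type} [Field Ω]

/-- The condition for a fixed root `β`. -/
def Sg (p : ℕ) (C : Subfield Ω) (ζ β X : Ω) : Prop :=
  ∃ (z : ℕ → Ω) (n : ℕ), (∀ j, z j ∈ C) ∧ 0 < n ∧ ∏ i ∈ Finset.range p, cjs p ζ β z i = X ∧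
    ∀ i, cjs p ζ β z i ^ n = cjs p ζ β z 0 ^ n

variable {p : ℕ} {C : Subfield Ω} {ζ : Ω}

theorem cjs_shift (β : Ω) (z : ℕ → Ω) (l i : ℕ) :
    cjs p ζ (ζ ^ l * β) z i = cjs p ζ β z (i + l) := by
  unfold cjs
  refine Finset.sum_congr rfl fun j _ => ?_
  rw [← mul_assoc, ← pow_add]

theorem cjs_twist (β : Ω) (z : ℕ → Ω) (l i : ℕ) :
    cjs p ζ β (fun j => z j * (ζ ^ l) ^ j) i = cjs p ζ β z (i + l) := by
  unfold cjs
  refine Finset.sum_congr rfl fun j _ => ?_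
  rw [pow_add]
  ring

theorem cjs_const (hp : 0 < p) (β t : Ω) (i : ℕ) :
    cjs p ζ β (fun j => if j = 0 then t else 0) i = t := by
  unfold cjs
  rw [Finset.sum_eq_single 0]
  · simp
  · intro j _ hj
    simp [hj]
  · intro h
    exact absurd (Finset.mem_range.2 hp) h

theorem prod_shift (hp : 0 < p) (hζ : ζ ^ p = 1) (l : ℕ) (g : Ω → Ω) :
    ∏ i ∈ Finset.range p, g (ζ ^ (i + l)) = ∏ i ∈ Finset.range p, g (ζ ^ i) := by
  have hinj : Set.InjOn (fun i => (i + l) % p) (Finset.range p : Set ℕ) := by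
    intro i hi j hj hij
    rw [Finset.coe_range, Set.mem_Iio] at hi hj
    have h1 : i + l ≡ j + l [MOD p] := hij
    have h2 : i ≡ j [MOD p] := Nat.ModEq.add_right_cancel' l h1
    have h3 : i % p = j % p := h2
    rwa [Nat.mod_eq_of_lt hi, Nat.mod_eq_of_lt hj] at h3
  have hmaps : Set.MapsTo (fun i => (i + l) % p) (Finset.range p : Set ℕ)
      (Finset.range p : Set ℕ) := by
    intro i _
    rw [Finset.coe_range, Set.mem_Iio]
    exact Nat.mod_lt _ hp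
  refine Finset.prod_nbij (fun i => (i + l) % p) (fun i hi => hmaps hi) hinj
    (Finset.surjOn_of_injOn_of_card_le _ hmaps hinj le_rfl) ?_
  intro i _
  have h4 : ζ ^ (i + l) = ζ ^ ((i + l) % p) := by
    conv_lhs => rw [← Nat.div_add_mod (i + l) p, pow_add, pow_mul, hζ, one_pow, one_mul]
  rw [h4]

/-- The number `cjs` as a function of the root of unity. -/
theorem prod_cjs_shift (hp : 0 < p) (hζ : ζ ^ p = 1) (β : Ω) (z : ℕ → Ω) (l : ℕ) :
    ∏ i ∈ Finset.range p, cjs p ζ β z (i + l) = ∏ i ∈ Finset.range p, cjs p ζ β z i :=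
  prod_shift hp hζ l fun e => ∑ j ∈ Finset.range p, z j * (e * β) ^ j

theorem Sg.change (hp : 0 < p) (hζ : IsPrimitiveRoot ζ p) {β β' X : Ω} (hβ : β ≠ 0)
    (hββ : β ^ p = β' ^ p) (h : Sg p C ζ β X) : Sg p C ζ β' X := by
  have : NeZero p := ⟨hp.ne'⟩
  obtain ⟨z, n, h1, h2, h3, h4⟩ := h
  have hβ' : β' ≠ 0 := by
    rintro rfl
    rw [zero_pow hp.ne'] at hββ
    exact hβ (pow_eq_zero_iff hp.ne' |>.1 hββ)
  obtain ⟨l, -, hl⟩ := hζ.eq_pow_of_pow_eq_one (ξ := β / β') (by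
    rw [div_pow, hββ, div_self (pow_ne_zero _ hβ')])
  have hb : β = ζ ^ l * β' := by rw [hl, div_mul_cancel₀ _ hβ']
  -- `β' = ζ ^ (p * l - l) β`
  have hb' : β' = ζ ^ (p * l - l) * β := by
    rw [hb, ← mul_assoc, ← pow_add, Nat.sub_add_cancel (Nat.le_mul_of_pos_left l hp), pow_mul,
      hζ.pow_eq_one, one_pow, one_mul]
  refine ⟨z, n, h1, h2, ?_, ?_⟩
  · rw [← h3, ← prod_cjs_shift hp hζ.pow_eq_one β z (p * l - l)]
    refine Finset.prod_congr rfl fun i _ => ?_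
    conv_lhs => rw [hb']
    exact cjs_shift β z _ i
  · intro i
    have e : ∀ i, cjs p ζ β' z i = cjs p ζ β z (i + (p * l - l)) := fun i => by
      conv_lhs => rw [hb']
      exact cjs_shift β z _ i
    rw [e i, e 0, h4, h4 (0 + (p * l - l))]

theorem cjs_mul (hζ : ζ ^ p = 1) {a β : Ω} (hβ : β ^ p = a) (ha : a ∈ C) (z z' : ℕ → Ω)
    (hz : ∀ j, z j ∈ C) (hz' : ∀ j, z' j ∈ C) :
    ∃ z'' : ℕ → Ω, (∀ j, z'' j ∈ C) ∧ ∀ i, cjs p ζ β z'' i = cjs p ζ β z i * cjs p ζ β z' i := by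
  refine ⟨fun r => ∑ j ∈ Finset.range p,
    if j ≤ r then z j * z' (r - j) else a * (z j * z' (p + r - j)), fun r => ?_, fun i => ?_⟩
  · refine Subfield.sum_mem _ fun j _ => ?_
    split_ifs
    · exact mul_mem (hz _) (hz' _)
    · exact mul_mem ha (mul_mem (hz _) (hz' _))
  · refine conv_eval a (ζ ^ i * β) ?_ z z'
    rw [mul_pow, ← pow_mul, mul_comm i p, pow_mul, hζ, one_pow, one_mul, hβ]

theorem Sg.mul (hζ : ζ ^ p = 1) {a β X Y : Ω} (hβ : β ^ p = a) (ha : a ∈ C)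
    (hX : Sg p C ζ β X) (hY : Sg p C ζ β Y) : Sg p C ζ β (X * Y) := by
  obtain ⟨z, n, h1, h2, h3, h4⟩ := hX
  obtain ⟨z', n', k1, k2, k3, k4⟩ := hY
  obtain ⟨z'', w1, w2⟩ := cjs_mul hζ hβ ha z z' h1 k1
  refine ⟨z'', n * n', w1, Nat.mul_pos h2 k2, ?_, fun i => ?_⟩
  · rw [← h3, ← k3, ← Finset.prod_mul_distrib]
    exact Finset.prod_congr rfl fun i _ => w2 i
  · rw [w2, w2, mul_pow, mul_pow, pow_mul, h4, mul_comm n n', pow_mul (cjs p ζ β z' i), k4,
      pow_mul (cjs p ζ β z' 0), pow_mul', ← pow_mul, mul_comm n n']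

theorem Sg.inv (hp : 0 < p) (hζ : ζ ^ p = 1) (hζC : ζ ∈ C) {a β X : Ω} (hβ : β ^ p = a)
    (ha : a ∈ C) (hX0 : X ≠ 0) (hXC : X ∈ C) (hX : Sg p C ζ β X) : Sg p C ζ β X⁻¹ := by
  obtain ⟨z, n, h1, h2, h3, h4⟩ := hX
  have hprod : ∀ m : ℕ, ∃ w : ℕ → Ω, (∀ j, w j ∈ C) ∧
      ∀ i, cjs p ζ β w i = ∏ l ∈ Finset.range m, cjs p ζ β z (i + (l + 1)) := by
    intro m
    induction m with
    | zero =>
      refine ⟨fun j => if j = 0 then 1 else 0, fun j => ?_, fun i => ?_⟩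
      · show (if j = 0 then (1 : Ω) else 0) ∈ C
        split_ifs
        · exact one_mem _
        · exact zero_mem _
      · rw [cjs_const hp, Finset.range_zero, Finset.prod_empty]
    | succ m ih =>
      obtain ⟨w, w1, w2⟩ := ih
      obtain ⟨w', v1, v2⟩ := cjs_mul hζ hβ ha w (fun j => z j * (ζ ^ (m + 1)) ^ j) w1
        (fun j => mul_mem (h1 j) (pow_mem (pow_mem hζC _) _))
      refine ⟨w', v1, fun i => ?_⟩
      rw [v2, w2, cjs_twist, Finset.prod_range_succ]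
  obtain ⟨w, w1, w2⟩ := hprod (p - 1)
  obtain ⟨w', v1, v2⟩ := cjs_mul hζ hβ ha w (fun j => if j = 0 then X⁻¹ else 0) w1 (fun j => by
    show (if j = 0 then X⁻¹ else 0) ∈ C
    split_ifs
    · exact inv_mem hXC
    · exact zero_mem _)
  have hall : ∀ i, cjs p ζ β z i * cjs p ζ β w i = X := by
    intro i
    rw [w2, ← h3, ← prod_cjs_shift hp hζ β z i]
    obtain ⟨q, rfl⟩ : ∃ q, p = q + 1 := ⟨p - 1, by omega⟩
    rw [Finset.prod_range_succ', mul_comm]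
    simp only [Nat.add_sub_cancel, Nat.zero_add]
    congr 1
    exact Finset.prod_congr rfl fun l _ => by rw [Nat.add_comm (l + 1) i]
  have hne : ∀ i, cjs p ζ β z i ≠ 0 := by
    intro i h0
    have := hall i
    rw [h0, zero_mul] at this
    exact hX0 this.symm
  have hinv : ∀ i, cjs p ζ β w' i = (cjs p ζ β z i)⁻¹ := by
    intro i
    rw [v2, cjs_const hp]
    have h5 : cjs p ζ β w i = X * (cjs p ζ β z i)⁻¹ := by
      rw [← hall i]
      field_simp [hne i]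
    rw [h5, mul_comm X, mul_assoc, mul_inv_cancel₀ hX0, mul_one]
  refine ⟨w', n, v1, h2, ?_, fun i => ?_⟩
  · rw [Finset.prod_congr rfl fun i _ => hinv i, Finset.prod_inv_distrib, h3]
  · rw [hinv, hinv, inv_pow, inv_pow, h4]

theorem Sg.subst (hp : 0 < p) (hζ : ζ ^ p = 1) {a β c X : Ω} (hβ : β ^ p = a) (ha : a ∈ C)
    (hc : c ∈ C) {n : ℕ} (hn : n.Coprime p) (h : Sg p C ζ (β ^ n * c) X) : Sg p C ζ β X := by
  obtain ⟨z, N, h1, h2, h3, h4⟩ := h
  have key : ∀ i, cjs p ζ β (fun l => ∑ j ∈ Finset.range p,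
      if (n * j) % p = l then (z j * c ^ j) * a ^ (n * j / p) else 0) i =
      cjs p ζ (β ^ n * c) z (n * i) := by
    intro i
    have hb : (ζ ^ i * β) ^ p = a := by
      rw [mul_pow, ← pow_mul, mul_comm i p, pow_mul, hζ, one_pow, one_mul, hβ]
    refine (subst_eval hp a (ζ ^ i * β) hb n (fun j => z j * c ^ j)).trans ?_
    unfold cjs
    refine Finset.sum_congr rfl fun j _ => ?_
    rw [mul_assoc, pow_mul, ← mul_pow, mul_pow (ζ ^ i) β n, ← pow_mul, mul_comm i n]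
    congr 2
    ring
  refine ⟨fun l => ∑ j ∈ Finset.range p,
      if (n * j) % p = l then (z j * c ^ j) * a ^ (n * j / p) else 0, N, fun l => ?_, h2, ?_,
      fun i => ?_⟩
  · refine Subfield.sum_mem _ fun j _ => ?_
    split_ifs
    · exact mul_mem (mul_mem (h1 j) (pow_mem hc _)) (pow_mem ha _)
    · exact zero_mem _
  · rw [Finset.prod_congr rfl fun i _ => key i, ← h3]
    exact prod_perm hp hζ hn fun e => ∑ j ∈ Finset.range p, z j * (e * (β ^ n * c)) ^ j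
  · rw [key, key, h4, mul_zero]

theorem Sg.root (hp : 0 < p) (hζ : ζ ^ p = 1) {β X : Ω} {n : ℕ} (hn : n.Coprime p)
    (h : Sg p C ζ β X) : Sg p C (ζ ^ n) β X := by
  obtain ⟨z, N, h1, h2, h3, h4⟩ := h
  have key : ∀ i, cjs p (ζ ^ n) β z i = cjs p ζ β z (n * i) := by
    intro i
    unfold cjs
    exact Finset.sum_congr rfl fun j _ => by rw [← pow_mul]
  refine ⟨z, N, h1, h2, ?_, fun i => ?_⟩
  · rw [Finset.prod_congr rfl fun i _ => key i, ← h3]
    exact prod_perm hp hζ hn fun e => ∑ j ∈ Finset.range p, z j * (e * β) ^ j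
  · rw [key, key, h4, mul_zero]

end gen

section loc

variable (p : ℕ) [Fact p.Prime] {F : Type} [Field F]

/-- The closure of the image of `F`. -/
noncomputable def Cl (τ : F →+* ℂ_[p]) : Subfield ℂ_[p] := τ.fieldRange.topologicalClosure

theorem mem_Cl {τ : F →+* ℂ_[p]} {x : ℂ_[p]} : x ∈ Cl p τ ↔ x ∈ closure (Set.range τ) := by
  unfold Cl
  rw [← RingHom.coe_fieldRange]
  exact Iff.rfl

theorem map_mem_Cl (τ : F →+* ℂ_[p]) (x : F) : τ x ∈ Cl p τ :=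
  (mem_Cl p).2 (subset_closure ⟨x, rfl⟩)

theorem sigT_iff {τ : F →+* ℂ_[p]} {ε α x : F} :
    SigT p τ ε α x ↔ ∃ β : ℂ_[p], β ^ p = τ α ∧ Sg p (Cl p τ) (τ ε) β (τ x) := by
  constructor
  · rintro ⟨β, z, n, h1, h2, h3, h4, h5⟩
    exact ⟨β, h1, z, n, fun j => (mem_Cl p).2 (h2 j), h3, h4, h5⟩
  · rintro ⟨β, h1, z, n, h2, h3, h4, h5⟩
    exact ⟨β, z, n, h1, fun j => (mem_Cl p).1 (h2 j), h3, h4, h5⟩

theorem sigT_of {τ : F →+* ℂ_[p]} {ε α x : F} (hε : IsPrimitiveRoot ε p) (hα : α ≠ 0)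
    (h : SigT p τ ε α x) {β : ℂ_[p]} (hβ : β ^ p = τ α) : Sg p (Cl p τ) (τ ε) β (τ x) := by
  have hp : 0 < p := (Fact.out : p.Prime).pos
  obtain ⟨β', h1, h2⟩ := (sigT_iff p).1 h
  refine h2.change hp (hε.map_of_injective τ.injective) ?_ (h1.trans hβ.symm)
  rintro rfl
  rw [zero_pow hp.ne'] at h1
  exact hα ((map_eq_zero τ).1 h1.symm)

theorem sig_down {τ : F →+* ℂ_[p]} {ε α x : F} (hε : IsPrimitiveRoot ε p) (hα : α ≠ 0)
    {n : ℕ} {c : F} (hn : n.Coprime p) (hc : c ≠ 0) (h : SigT p τ ε (α ^ n * c ^ p) x) :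
    SigT p τ ε α x := by
  have hp : 0 < p := (Fact.out : p.Prime).pos
  obtain ⟨β, hβ⟩ := IsAlgClosed.exists_pow_nat_eq (τ α) hp
  have hζ : (τ ε) ^ p = 1 := by rw [← map_pow, hε.pow_eq_one, map_one]
  refine (sigT_iff p).2 ⟨β, hβ, ?_⟩
  have h1 : (β ^ n * τ c) ^ p = τ (α ^ n * c ^ p) := by
    rw [mul_pow, ← pow_mul, mul_comm n p, pow_mul, hβ, map_mul, map_pow, map_pow]
  exact (sigT_of p hε (mul_ne_zero (pow_ne_zero _ hα) (pow_ne_zero _ hc)) h h1).subst hp hζ hβ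
    (map_mem_Cl p τ α) (map_mem_Cl p τ c) hn

theorem sig_root {τ : F →+* ℂ_[p]} {ε α x : F} (hε : IsPrimitiveRoot ε p)
    {n : ℕ} (hn : n.Coprime p) (h : SigT p τ ε α x) : SigT p τ (ε ^ n) α x := by
  have hp : 0 < p := (Fact.out : p.Prime).pos
  have hζ : (τ ε) ^ p = 1 := by rw [← map_pow, hε.pow_eq_one, map_one]
  obtain ⟨β, h1, h2⟩ := (sigT_iff p).1 h
  refine (sigT_iff p).2 ⟨β, h1, ?_⟩
  rw [map_pow]
  exact h2.root hp hζ hn

/-- An inverse modulo `p`. -/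
theorem exists_inv {n : ℕ} (hn : n.Coprime p) : ∃ m q : ℕ, m.Coprime p ∧ n * m = 1 + p * q := by
  have hp : 1 < p := (Fact.out : p.Prime).one_lt
  obtain ⟨m, -, hm⟩ := Nat.exists_mul_mod_eq_one_of_coprime hn hp
  have h1 : n * m = 1 + p * (n * m / p) := by
    have := Nat.div_add_mod (n * m) p
    omega
  refine ⟨m, n * m / p, ?_, h1⟩
  rw [Nat.coprime_comm, Nat.Prime.coprime_iff_not_dvd (Fact.out : p.Prime)]
  intro hd
  have h2 : p ∣ n * m := Dvd.dvd.mul_left hd n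
  rw [h1] at h2
  have h3 : p ∣ 1 := (Nat.dvd_add_left (Dvd.intro _ rfl)).1 h2
  have := Nat.le_of_dvd one_pos h3
  omega

end loc

/-- **Y_SGB.** -/
theorem y_sgb : Y_SGB := by
  intro p _ F _ _ τ ε α hε hα
  have hp : 0 < p := (Fact.out : p.Prime).pos
  have hζ : (τ ε) ^ p = 1 := by rw [← map_pow, hε.pow_eq_one, map_one]
  refine ⟨?_, ?_, ?_, ?_, ?_, ?_, ?_⟩
  · rintro x ⟨t, ht, htx⟩
    obtain ⟨β, hβ⟩ := IsAlgClosed.exists_pow_nat_eq (τ α) hp
    refine (sigT_iff p).2 ⟨β, hβ, fun j => if j = 0 then t else 0, 1, fun j => ?_, one_pos, ?_,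
      fun i => ?_⟩
    · show (if j = 0 then t else 0) ∈ Cl p τ
      split_ifs
      · exact (mem_Cl p).2 ht
      · exact zero_mem _
    · rw [Finset.prod_congr rfl fun i _ => cjs_const hp β t i, Finset.prod_const,
        Finset.card_range, htx]
    · rw [cjs_const hp, cjs_const hp]
  · intro x y hx hy
    obtain ⟨β, hβ⟩ := IsAlgClosed.exists_pow_nat_eq (τ α) hp
    refine (sigT_iff p).2 ⟨β, hβ, ?_⟩
    rw [map_mul]
    exact (sigT_of p hε hα hx hβ).mul hζ hβ (map_mem_Cl p τ α) (sigT_of p hε hα hy hβ)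
  · intro x hx0 hx
    obtain ⟨β, hβ⟩ := IsAlgClosed.exists_pow_nat_eq (τ α) hp
    refine (sigT_iff p).2 ⟨β, hβ, ?_⟩
    rw [map_inv₀]
    exact (sigT_of p hε hα hx hβ).inv hp hζ (map_mem_Cl p τ ε) hβ (map_mem_Cl p τ α)
      ((map_ne_zero τ).2 hx0) (map_mem_Cl p τ x)
  · intro n c hn hc x
    refine ⟨sig_down p hε hα hn hc, fun h => ?_⟩
    obtain ⟨m, q, hm, hmq⟩ := exists_inv p hn
    refine sig_down p hε (mul_ne_zero (pow_ne_zero _ hα) (pow_ne_zero _ hc)) hm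
      (c := (α ^ q * c ^ m)⁻¹) (inv_ne_zero (mul_ne_zero (pow_ne_zero _ hα) (pow_ne_zero _ hc))) ?_
    have h1 : (α ^ n * c ^ p) ^ m * ((α ^ q * c ^ m)⁻¹) ^ p = α := by
      have h2 : (α ^ n * c ^ p) ^ m = α * (α ^ q * c ^ m) ^ p := by
        rw [mul_pow, ← pow_mul, hmq, pow_add, pow_one, mul_pow, ← pow_mul, ← pow_mul, ← pow_mul,
          mul_comm q p, mul_comm m p]
        ring
      rw [h2, inv_pow, mul_assoc, mul_inv_cancel₀ (pow_ne_zero _ (mul_ne_zero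
        (pow_ne_zero _ hα) (pow_ne_zero _ hc))), mul_one]
    rw [h1]
    exact h
  · intro n hn x
    refine ⟨fun h => ?_, sig_root p hε hn⟩
    obtain ⟨m, q, hm, hmq⟩ := exists_inv p hn
    have h1 := sig_root p (hε.pow_of_coprime n hn) hm h
    have h2 : (ε ^ n) ^ m = ε := by
      rw [← pow_mul, hmq, pow_add, pow_one, pow_mul, hε.pow_eq_one, one_pow, mul_one]
    rwa [h2] at h1
  · rintro α' hα' ⟨t, ht, htx⟩ x hx
    have ht0 : t ≠ 0 := by
      rintro rfl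
      rw [zero_pow hp.ne'] at htx
      exact div_ne_zero hα hα' ((map_eq_zero τ).1 htx.symm)
    obtain ⟨β, h1, z, n, h2, h3, h4, h5⟩ := (sigT_iff p).1 hx
    have key : ∀ i, cjs p (τ ε) (β / t) (fun j => z j * t ^ j) i = cjs p (τ ε) β z i := by
      intro i
      unfold cjs
      refine Finset.sum_congr rfl fun j _ => ?_
      rw [mul_assoc, ← mul_pow]
      congr 2
      field_simp
    refine (sigT_iff p).2 ⟨β / t, ?_, fun j => z j * t ^ j, n, fun j =>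
      mul_mem (h2 j) (pow_mem ((mem_Cl p).2 ht) _), h3, ?_, fun i => ?_⟩
    · rw [div_pow, h1, htx, map_div₀, div_div_cancel₀ ((map_ne_zero τ).2 hα)]
    · rw [Finset.prod_congr rfl fun i _ => key i, h4]
    · rw [key, key, h5]
  · intro f x
    have hr : Set.range (τ.comp (f : F →+* F)) = Set.range τ := by
      ext y
      constructor
      · rintro ⟨a, rfl⟩
        exact ⟨f a, rfl⟩
      · rintro ⟨a, rfl⟩
        exact ⟨f.symm a, by simp⟩
    unfold SigT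
    rw [hr]
    rfl

end Pool.Agent.Helper96.WY
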