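import Pool.Agent.Helper38.WY.Goals6
import Pool.Agent.Helper82.PW.WTRV
import Pool.Agent.Helper11.RL.POL
import Pool.Agent.Helper79.RP.HIL1
import Pool.Agent.Helper85.PW.NGRP
import Pool.Agent.Helper16.PW.NALG
import Pool.Agent.Helper94.PW.NEVL
import Pool.Agent.Helper96.WY.YSGB

/-!
# Project WY (MP_fc6b1e_nt), packet WY-O_DSC: descent of elements of the Selmer group
-/

set_option autoImplicit false

namespace Pool.Agent.Helper96.WY

open NumberField Polynomial Module IsDedekindDomain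
open Pool.Agent.Helper51.RP Pool.Agent.Helper42.PW Pool.Agent.Helper38.WY
open Pool.Agent.Helper77.RL (act act_add act_sub act_one act_mul act_C act_X act_X_pow act_comm
  lift act_lift lift_map act_map)

section act

variable {p : ℕ} [Fact p.Prime] {K M : Type} [Field K] [Field M] [Algebra K M]

theorem act_congr (δ : M ≃ₐ[K] M) (A B : ℤ[X])
    (h : A.map (Int.castRingHom (ZMod p)) = B.map (Int.castRingHom (ZMod p))) (x : Mˣ) :
    ∃ y : Mˣ, act δ A x = act δ B x * y ^ p := by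
  have hdvd : (C (p : ℤ)) ∣ (A - B) := by
    rw [C_dvd_iff_dvd_coeff]
    intro i
    have h0 : (A - B).map (Int.castRingHom (ZMod p)) = 0 := by
      rw [Polynomial.map_sub, h, sub_self]
    have h1 := congrArg (fun f ↦ f.coeff i) h0
    simp only [coeff_map, coeff_zero, eq_intCast] at h1
    exact (ZMod.intCast_zmod_eq_zero_iff_dvd _ _).mp h1
  obtain ⟨E, hE⟩ := hdvd
  refine ⟨act δ E x, ?_⟩
  have hA : A = B + C (p : ℤ) * E := by
    rw [← hE]; ring
  rw [hA, act_add, act_mul, act_C, zpow_natCast]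

end act

/-- The product of the conjugates of `c`, if `σ x = x c^p`. -/
theorem prod_pow_one {p q : ℕ} {M M' : Type} [Field M] [Field M'] [Algebra M M']
    (σ : M' ≃ₐ[M] M') (hσ : σ ^ q = 1) {x c : M'} (hx : x ≠ 0) (h : σ x = x * c ^ p) :
    (∏ l ∈ Finset.range q, (σ ^ l) c) ^ p = 1 := by
  have key : ∀ k : ℕ, (σ ^ k) x = x * (∏ l ∈ Finset.range k, (σ ^ l) c) ^ p := by
    intro k
    induction k with
    | zero => simp
    | succ k ih =>
      have h1 : (σ ^ (k + 1)) x = (σ ^ k) (σ x) := by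
        rw [pow_succ, AlgEquiv.mul_apply]
      rw [h1, h, map_mul, ih, map_pow, Finset.prod_range_succ, mul_pow, mul_assoc]
  have h2 := key q
  rw [hσ, AlgEquiv.one_apply] at h2
  have h3 : x * 1 = x * (∏ l ∈ Finset.range q, (σ ^ l) c) ^ p := by rw [mul_one, ← h2]
  exact (mul_left_cancel₀ hx h3).symm

/-- **O_DSC** from `O_TRI`. -/
theorem o_dsc (hTri : O_TRI) : O_DSC := by
  intro p hpf hp2 K L M M' _ _ _ _ _ _ _ _ _ _ _ _ _ _ _ m n i δ δ' σ T ε α hm hmp hδ hi hε hα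
    hext hσ hfix hdα hσε hcα x c hx hxn hc hσx
  have hG : N_GRP := Pool.Agent.Helper85.PW.n_grp
    (Pool.Agent.Helper16.PW.n_alg Pool.Agent.Helper94.PW.n_evl)
  have hpp : p.Prime := hpf.out
  have hp : 0 < p := hpp.pos
  obtain ⟨tri1, tri2⟩ := hTri p hp2 M' ε α hε hα
  set αu : M'ˣ := Units.mk0 α hα with hαu
  let V : M'ˣ → Prop := fun y => (∀ W : HeightOneSpectrum (𝓞 M'), LocW p W α (y : M')) ∧
    ∀ τ ∈ (above T : Set (M' →+* ℂ_[p])), SigT p τ ε α (y : M')
  have Vmul : ∀ y z : M'ˣ, V y → V z → V (y * z) := by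
    rintro y z ⟨a1, a2⟩ ⟨b1, b2⟩
    refine ⟨fun W => Pool.Agent.Helper82.PW.locW_mul hG hα (a1 W) (b1 W), fun τ hτ => ?_⟩
    obtain ⟨-, s2, -⟩ := y_sgb p M' τ ε α hε hα
    rw [Units.val_mul]
    exact s2 _ _ (a2 τ hτ) (b2 τ hτ)
  have Vpp : ∀ y : M'ˣ, V (y ^ p) := by
    intro y
    refine ⟨fun W => Pool.Agent.Helper82.PW.locW_pow hG hα y, fun τ hτ => ?_⟩
    obtain ⟨s1, -⟩ := y_sgb p M' τ ε α hε hα
    refine s1 _ ⟨τ (y : M'), subset_closure ⟨_, rfl⟩, ?_⟩
    rw [Units.val_pow_eq_pow_val, map_pow]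
  have Vα : V αu := ⟨tri1, fun τ _ => tri2 τ⟩
  have Vone : V 1 := by
    have := Vpp 1
    rwa [one_pow] at this
  have Vαj : ∀ j : ℕ, V (αu ^ j) := by
    intro j
    induction j with
    | zero => rw [pow_zero]; exact Vone
    | succ j ih => rw [pow_succ]; exact Vmul _ _ ih Vα
  have Vx : V x := ⟨hx.loc, hx.sig⟩
  -- the element of `M`
  have claim1 : ∃ (j : ℕ) (w : M'ˣ) (y₁ : Mˣ),
      Units.map (algebraMap M M' : M →* M') y₁ = x * αu ^ j * w ^ p := by
    have hmk : ∀ z : M'ˣ, σ (z : M') = z → ∃ y₁ : Mˣ,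
        Units.map (algebraMap M M' : M →* M') y₁ = z := by
      intro z hz
      obtain ⟨y₀, hy₀⟩ := hfix _ hz
      have hy₀0 : y₀ ≠ 0 := by
        rintro rfl
        rw [map_zero] at hy₀
        exact z.ne_zero hy₀
      refine ⟨Units.mk0 y₀ hy₀0, ?_⟩
      ext
      exact hy₀.symm
    rcases Nat.eq_zero_or_pos n with hn | hn
    · subst hn
      rw [pow_zero, orderOf_eq_one_iff] at hσ
      obtain ⟨y₁, hy₁⟩ := hmk x (by rw [hσ]; rfl)
      exact ⟨0, 1, y₁, by rw [hy₁, pow_zero, one_pow, mul_one, mul_one]⟩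
    · obtain ⟨cα, hcα1, hcα2⟩ := hcα
      have hcα2 := hcα2 hn
      have hσq : σ ^ p ^ n = 1 := by rw [← hσ, pow_orderOf_eq_one]
      have z1 := prod_pow_one σ hσq x.ne_zero hσx
      have z2 := prod_pow_one σ hσq hα hcα1
      have hprim : IsPrimitiveRoot (∏ l ∈ Finset.range (p ^ n), (σ ^ l) cα) p := by
        have h1 : orderOf (∏ l ∈ Finset.range (p ^ n), (σ ^ l) cα) = p :=
          orderOf_eq_prime z2 hcα2
        have h2 := IsPrimitiveRoot.orderOf (∏ l ∈ Finset.range (p ^ n), (σ ^ l) cα)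
        rwa [h1] at h2
      have hinv : ((∏ l ∈ Finset.range (p ^ n), (σ ^ l) c)⁻¹) ^ p = 1 := by
        rw [inv_pow, z1, inv_one]
      have : NeZero p := ⟨hp.ne'⟩
      obtain ⟨j, -, hj⟩ := hprim.eq_pow_of_pow_eq_one hinv
      have hz0 : (∏ l ∈ Finset.range (p ^ n), (σ ^ l) c) ≠ 0 := by
        intro h0
        rw [h0, zero_pow hp.ne'] at z1
        exact zero_ne_one z1
      have hprod : ∏ l ∈ Finset.range (p ^ n), (σ ^ l) (c * cα ^ j) = 1 := by
        have h1 : ∏ l ∈ Finset.range (p ^ n), (σ ^ l) (c * cα ^ j) =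
            (∏ l ∈ Finset.range (p ^ n), (σ ^ l) c) *
              (∏ l ∈ Finset.range (p ^ n), (σ ^ l) cα) ^ j := by
          rw [← Finset.prod_pow, ← Finset.prod_mul_distrib]
          exact Finset.prod_congr rfl fun l _ => by rw [map_mul, map_pow]
        rw [h1, hj, mul_inv_cancel₀ hz0]
      obtain ⟨y, hy0, hy⟩ := Pool.Agent.Helper79.RP.hilbert90 (pow_pos hp n) σ hσ hprod
      have hcα0 : cα ≠ 0 := by
        rintro rfl
        rw [zero_pow hp.ne', mul_zero] at hcα1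
        exact hα ((map_eq_zero_iff σ σ.injective).1 hcα1)
      have hcc0 : c * cα ^ j ≠ 0 := mul_ne_zero hc (pow_ne_zero _ hcα0)
      obtain ⟨y₁, hy₁⟩ := hmk (x * αu ^ j * ((Units.mk0 y hy0)⁻¹) ^ p) (by
        have hxx : (x : M') ≠ 0 := x.ne_zero
        simp only [Units.val_mul, Units.val_pow_eq_pow_val, Units.val_inv_eq_inv_val, hαu,
          Units.val_mk0, map_mul, map_pow, map_inv₀, hσx, hcα1, hy, inv_pow, mul_pow]
        field_simp
        ring)
      exact ⟨j, _, y₁, hy₁⟩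
  obtain ⟨j, w, y₁, hy₁⟩ := claim1
  -- the polynomial
  set P : (ZMod p)[X] := X - C (i : ZMod p) with hP
  have hdvd : P ∣ X ^ m - 1 := by
    rw [hP, dvd_iff_isRoot, IsRoot.def, eval_sub, eval_pow, eval_X, eval_one, hi, sub_self]
  obtain ⟨R₀, hR₀⟩ := hdvd
  have hm0 : (m : ZMod p) ≠ 0 := by
    rw [Ne, ZMod.natCast_eq_zero_iff]
    intro h
    have h1 := Nat.Coprime.eq_one_of_dvd hmp.symm h
    exact hpp.one_lt.ne' h1
  have hsep : (X ^ m - 1 : (ZMod p)[X]).Separable := X_pow_sub_one_separable_iff.2 hm0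
  have hcop : IsCoprime P R₀ := by
    rw [hR₀] at hsep
    exact hsep.isCoprime
  obtain ⟨a, b, hab⟩ := hcop
  set E : (ZMod p)[X] := b * R₀ with hE
  have hE1 : (lift E).map (Int.castRingHom (ZMod p)) = 1 + P * (-a) := by
    rw [lift_map, hE]
    linear_combination hab
  have hactP : Pw p (pol P δ' (x * αu ^ j * w ^ p)) := by
    obtain ⟨r, hr⟩ := hx.pol
    obtain ⟨d, hd⟩ := hdα
    have hd0 : d ≠ 0 := by
      rintro rfl
      rw [zero_pow hp.ne', mul_zero] at hd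
      exact hα ((map_eq_zero_iff δ' δ'.injective).1 hd)
    obtain ⟨y, hy⟩ := act_congr (p := p) δ' (lift P) (X - C (i : ℤ)) (by
      rw [lift_map, hP, Polynomial.map_sub, map_X, map_C]
      simp) αu
    have h1 : act δ' (X - C (i : ℤ)) αu = (Units.mk0 d hd0) ^ p := by
      rw [act_sub, act_X, act_C, zpow_natCast, div_eq_iff_eq_mul]
      ext
      rw [Units.val_mul, Units.val_pow_eq_pow_val, Units.val_pow_eq_pow_val, Units.val_mk0,
        mul_comm]
      exact hd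
    have h2 : pol P δ' αu = (Units.mk0 d hd0 * y) ^ p := by
      rw [← act_lift, hy, h1, mul_pow]
    refine ⟨r * (Units.mk0 d hd0 * y) ^ j * pol P δ' w, ?_⟩
    have h3 : ∀ s t u : M'ˣ, s ^ p * (t ^ p) ^ j * u ^ p = (s * t ^ j * u) ^ p := by
      intro s t u
      rw [mul_pow, mul_pow, ← pow_mul, ← pow_mul, mul_comm p j]
    rw [map_mul, map_mul, map_pow, map_pow, hr, h2, h3]
  obtain ⟨v, hv⟩ := Pool.Agent.Helper11.RL.l_pol p L M' δ' P (-a) (lift E) hE1 _ hactP
  have hup : Units.map (algebraMap M M' : M →* M') (pol E δ y₁) =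
      x * αu ^ j * w ^ p * v ^ p := by
    rw [← act_lift, act_map (algebraMap M M') δ δ' (fun y => (hext y).symm), hy₁, hv]
  have hVx₂ : V (x * αu ^ j * w ^ p * v ^ p) :=
    Vmul _ _ (Vmul _ _ (Vmul _ _ Vx (Vαj j)) (Vpp w)) (Vpp v)
  have hval : algebraMap M M' ((pol E δ y₁ : Mˣ) : M) =
      ((x * αu ^ j * w ^ p * v ^ p : M'ˣ) : M') := by
    rw [← hup]
    rfl
  refine ⟨pol E δ y₁, ⟨?_, fun W => ?_, fun τ hτ => ?_⟩, fun j' hw' => ?_⟩
  · obtain ⟨y, hy⟩ := act_congr (p := p) δ (lift P * lift E) ((X ^ m - 1) * lift b) (by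
      rw [Polynomial.map_mul, lift_map, lift_map, Polynomial.map_mul, lift_map,
        Polynomial.map_sub, Polynomial.map_pow, map_X, Polynomial.map_one, hR₀, hE]
      ring) y₁
    refine ⟨y, ?_⟩
    rw [← act_lift, ← act_lift, ← act_mul, hy, act_mul, act_sub, act_one, act_X_pow, hδ]
    have h3 : ∀ u : Mˣ, Units.map (((1 : M ≃ₐ[K] M) : M →+* M) : M →* M) u / u = 1 := by
      intro u
      rw [div_eq_one]
      ext
      rfl
    rw [h3, one_mul]
  · rw [hval]
    exact hVx₂.1 W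
  · rw [hval]
    exact hVx₂.2 τ hτ
  · obtain ⟨w', hw'⟩ := hw'
    rw [hval] at hw'
    refine hxn (j + j') ⟨w' * (w : M')⁻¹ * (v : M')⁻¹, ?_⟩
    have hw0 : (w : M') ≠ 0 := w.ne_zero
    have hv0 : (v : M') ≠ 0 := v.ne_zero
    rw [mul_pow, mul_pow, hw']
    simp only [Units.val_mul, Units.val_pow_eq_pow_val, hαu, Units.val_mk0, inv_pow, pow_add]
    field_simp

end Pool.Agent.Helper96.WY
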